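import Pool.Agent.MonCnt.Low

/-!
# Counting the cycles through a vertex: monotone programs that are only correct on graphs
-/

namespace Pool.Agent.Results.MP_18d1ca_lc.CountingCircuits

open Finset
open scoped NNReal

open Classical in
/-- Monotone programs on graphs with vertex set `Fin n`.  `Prog k l` says that `l` is the list of
the functions `G ↦ value` computed at the gates of a program (last gate first) with `k` product
gates.  Every gate is a nonnegative real constant, the indicator of an edge `{a, b}`, a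
nonnegative real multiple of an earlier gate, or the sum or the product of two earlier gates.
Only the values on graphs (that is, on 0/1 inputs) matter. -/
inductive Prog {n : ℕ} : ℕ → List (SimpleGraph (Fin n) → ℝ≥0) → Prop
  | nil : Prog 0 []
  | const (c : ℝ≥0) {k : ℕ} {l : List (SimpleGraph (Fin n) → ℝ≥0)} :
      Prog k l → Prog k ((fun _ => c) :: l)
  | edge (a b : Fin n) {k : ℕ} {l : List (SimpleGraph (Fin n) → ℝ≥0)} :
      Prog k l → Prog k ((fun G => if G.Adj a b then 1 else 0) :: l)
  | scale (c : ℝ≥0) {k : ℕ} {f : SimpleGraph (Fin n) → ℝ≥0}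
      {l : List (SimpleGraph (Fin n) → ℝ≥0)} :
      Prog k l → f ∈ l → Prog k ((fun G => c * f G) :: l)
  | add {k : ℕ} {f g : SimpleGraph (Fin n) → ℝ≥0} {l : List (SimpleGraph (Fin n) → ℝ≥0)} :
      Prog k l → f ∈ l → g ∈ l → Prog k ((fun G => f G + g G) :: l)
  | mul {k : ℕ} {f g : SimpleGraph (Fin n) → ℝ≥0} {l : List (SimpleGraph (Fin n) → ℝ≥0)} :
      Prog k l → f ∈ l → g ∈ l → Prog (k + 1) ((fun G => f G * g G) :: l)

/-- `S` is the set of edges of a cycle through `v` (of any length `k ≥ 3`) of the complete graph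
on the vertices `0, …, n - 1`: its edges join consecutive terms of a cyclic sequence of `k`
distinct vertices, one of which is `v`.  (`finRotate k` sends `i` to `i + 1` and the last index
to `0`.) -/
def IsCycleThrough {n : ℕ} (v : Fin n) (S : Finset (Sym2 (Fin n))) : Prop :=
  ∃ k : ℕ, 3 ≤ k ∧ ∃ a : Fin k → Fin n, Function.Injective a ∧ v ∈ Set.range a ∧
    (S : Set (Sym2 (Fin n))) = Set.range (fun i => s(a i, a (finRotate k i)))

/-- `S` is the set of edges of a Hamiltonian cycle of the complete graph on `0, …, n - 1`. -/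
def IsHamiltonian {n : ℕ} (S : Finset (Sym2 (Fin n))) : Prop :=
  ∃ a : Fin n → Fin n, Function.Injective a ∧
    (S : Set (Sym2 (Fin n))) = Set.range (fun i => s(a i, a (finRotate n i)))

open Classical in
/-- the number of cycles of `G` through `v` -/
noncomputable def cycleCount {n : ℕ} (v : Fin n) (G : SimpleGraph (Fin n)) : ℕ :=
  (univ.filter (fun S : Finset (Sym2 (Fin n)) =>
    IsCycleThrough v S ∧ (S : Set (Sym2 (Fin n))) ⊆ G.edgeSet)).card

open Classical in
/-- the number of Hamiltonian cycles of `H` -/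
noncomputable def hamiltonianCount {n : ℕ} (H : SimpleGraph (Fin n)) : ℕ :=
  (univ.filter (fun S : Finset (Sym2 (Fin n)) =>
    IsHamiltonian S ∧ (S : Set (Sym2 (Fin n))) ⊆ H.edgeSet)).card

/-- the function `f` is the number of cycles through `v`, for all subgraphs of `H` (with the same
vertices) in which every vertex has degree at most 4 -/
def CountsOn {n : ℕ} (v : Fin n) (H : SimpleGraph (Fin n)) (f : SimpleGraph (Fin n) → ℝ≥0) :
    Prop :=
  ∀ G : SimpleGraph (Fin n), G ≤ H → (∀ x, (G.neighborSet x).ncard ≤ 4) → f G = cycleCount v G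

open Classical in
theorem adj_edge {n : ℕ} (a b : Fin n) (G : SimpleGraph (Fin n)) :
    MonCnt.adj G s(a, b) = if G.Adj a b then 1 else 0 := by
  unfold MonCnt.adj
  exact if_congr G.mem_edgeSet rfl rfl

/-- every program comes from a monotone circuit of polynomials -/
theorem lift {n : ℕ} {k : ℕ} {l : List (SimpleGraph (Fin n) → ℝ≥0)} (h : Prog k l) :
    ∃ l' : List (MvPolynomial (Sym2 (Fin n)) ℝ≥0), MonCnt.MC k l' ∧
      l'.map (fun F G => MvPolynomial.eval (MonCnt.adj G) F) = l := by
  induction h with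
  | nil => exact ⟨[], .nil, rfl⟩
  | const c _ ih =>
    obtain ⟨l', h1, rfl⟩ := ih
    refine ⟨_, .const c h1, ?_⟩
    rw [List.map_cons]
    congr 1
    funext G
    simp
  | edge a b _ ih =>
    obtain ⟨l', h1, rfl⟩ := ih
    refine ⟨_, .input s(a, b) h1, ?_⟩
    rw [List.map_cons]
    congr 1
    funext G
    rw [MvPolynomial.eval_X, adj_edge]
  | scale c _ hf ih =>
    obtain ⟨l', h1, rfl⟩ := ih
    obtain ⟨F, hF, rfl⟩ := List.mem_map.1 hf
    refine ⟨_, .scale c h1 hF, ?_⟩
    rw [List.map_cons]
    congr 1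
    funext G
    simp
  | add _ hf hg ih =>
    obtain ⟨l', h1, rfl⟩ := ih
    obtain ⟨F, hF, rfl⟩ := List.mem_map.1 hf
    obtain ⟨F', hF', rfl⟩ := List.mem_map.1 hg
    refine ⟨_, .add h1 hF hF', ?_⟩
    rw [List.map_cons]
    congr 1
    funext G
    simp
  | mul _ hf hg ih =>
    obtain ⟨l', h1, rfl⟩ := ih
    obtain ⟨F, hF, rfl⟩ := List.mem_map.1 hf
    obtain ⟨F', hF', rfl⟩ := List.mem_map.1 hg
    refine ⟨_, .mul h1 hF hF', ?_⟩
    rw [List.map_cons]
    congr 1
    funext G
    simp

/-- Let `n ≥ 2 ^ 37`, let `H` be any graph on `n` vertices and `v` a vertex.  Every monotone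
program with a gate whose value is the number of cycles of `G` through `v`, for every subgraph `G`
of `H` of maximum degree at most 4, has at least `h * 2 ^ n / (4 * n!)` product gates, where `h`
is the number of Hamiltonian cycles of `H`.  For the complete graph this is at least
`2 ^ n / (8 * n)`. -/
theorem result (n : ℕ) (hn : 2 ^ 37 ≤ n) (v : Fin n) (k : ℕ)
    (l : List (SimpleGraph (Fin n) → ℝ≥0)) (hl : Prog k l) :
    (∀ H : SimpleGraph (Fin n), (∃ f ∈ l, CountsOn v H f) →
      hamiltonianCount H * 2 ^ n ≤ 4 * n.factorial * k) ∧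
    ((∃ f ∈ l, CountsOn v ⊤ f) → 2 ^ n ≤ 8 * n * k) := by
  have main : ∀ H : SimpleGraph (Fin n), (∃ f ∈ l, CountsOn v H f) →
      hamiltonianCount H * 2 ^ n ≤ 4 * n.factorial * k := by
    rintro H ⟨f, hf, hcount⟩
    obtain ⟨l', h1, rfl⟩ := lift hl
    obtain ⟨F, hF, rfl⟩ := List.mem_map.1 hf
    exact MonCnt.lower_host hn v H h1 hF hcount
  refine ⟨main, fun h => ?_⟩
  have h1 := main ⊤ h
  have hn3 : 3 ≤ n := le_trans (by norm_num) hn
  have h2 : n.factorial ≤ hamiltonianCount (⊤ : SimpleGraph (Fin n)) * (2 * n) :=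
    MonCnt.hamNum_top hn3
  have h3 : n.factorial * 2 ^ n ≤ n.factorial * (8 * n * k) := by
    calc n.factorial * 2 ^ n
        ≤ hamiltonianCount (⊤ : SimpleGraph (Fin n)) * (2 * n) * 2 ^ n :=
          Nat.mul_le_mul_right _ h2
      _ = 2 * n * (hamiltonianCount (⊤ : SimpleGraph (Fin n)) * 2 ^ n) := by ring
      _ ≤ 2 * n * (4 * n.factorial * k) := Nat.mul_le_mul_left _ h1
      _ = n.factorial * (8 * n * k) := by ring
  exact Nat.le_of_mul_le_mul_left h3 (Nat.factorial_pos n)

end Pool.Agent.Results.MP_18d1ca_lc.CountingCircuits
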