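import Pool.Agent.WalkProg43.Main
import Pool.Agent.WalkProg43.Count

namespace Pool.Agent.Results.MP_18d1ca_lc.HeldKarpOptimal

open Pool.Agent.WalkProg43

/-- Walk branching programs over a field of characteristic different from two, with coefficients
depending on the multiset of edges only: one that counts the cycles through `v` of every graph has
at least `C(n - 2, t - 1)` nodes at each time `1 ≤ t ≤ n - 1` with each label `a ≠ v`, and the
least size is `(n - 1) 2 ^ (n - 2)`. -/
theorem result (n : ℕ) (hn : 3 ≤ n) (v : Fin n) (F : Type) [Field F]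
    (h2 : (2 : F) ≠ 0) :
    (∀ P : WalkProgram n v F, P.EdgeSymmetric →
      (∀ G : SimpleGraph (Fin n), P.output G = (cycleCount G v : F)) →
      ∀ t : ℕ, 1 ≤ t → t ≤ n - 1 → ∀ a : Fin n, a ≠ v →
        (n - 2).choose (t - 1) ≤ P.nodes t a) ∧
    IsLeast {N : ℕ | ∃ P : WalkProgram n v F, P.EdgeSymmetric ∧
      (∀ G : SimpleGraph (Fin n), P.output G = (cycleCount G v : F)) ∧ P.size = N}
      ((n - 1) * 2 ^ (n - 2)) := by
  refine ⟨?_, ⟨heldKarp n v F, edgeSymmetric_heldKarp, output_heldKarp h2, size_heldKarp hn⟩, ?_⟩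
  · intro P hsym hcount t ht1 ht2 a ha
    have h := choose_le_nodes h2 hn P hsym hcount ha (t - 1) (by omega)
    have ht' : t - 1 + 1 = t := by omega
    rwa [ht'] at h
  · rintro N ⟨P, hsym, hcount, rfl⟩
    exact size_lower h2 hn P hsym hcount

end Pool.Agent.Results.MP_18d1ca_lc.HeldKarpOptimal
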