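import Pool.Agent.WalkProg43.GFinal

namespace Pool.Agent.Results.MP_18d1ca_lc.SymmetricPrograms

open Pool.Agent.WalkProg43

/-- Walk branching programs over a field of characteristic different from two whose coefficients
are invariant under relabelling the vertices: one that counts the cycles through `v` of every
graph on `n` vertices has at least `catalan ⌊(n - 2) / 2⌋` nodes at the time `⌊(n - 2) / 2⌋ + 1`
with each label `a ≠ v`, and size at least `2 ^ (n - 2) / n`; there is one of size
`(n - 1) 2 ^ (n - 2)`. -/
theorem result (n : ℕ) (hn : 4 ≤ n) (v : Fin n) (F : Type) [Field F] (h2 : (2 : F) ≠ 0) :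
    (∀ P : WalkProgram n v F, P.RelabelInvariant →
      (∀ G : SimpleGraph (Fin n), P.output G = (cycleCount G v : F)) →
      (∀ a : Fin n, a ≠ v → catalan ((n - 2) / 2) ≤ P.nodes ((n - 2) / 2 + 1) a) ∧
        2 ^ (n - 2) ≤ n * P.size) ∧
    ∃ P : WalkProgram n v F, P.RelabelInvariant ∧
      (∀ G : SimpleGraph (Fin n), P.output G = (cycleCount G v : F)) ∧
      P.size = (n - 1) * 2 ^ (n - 2) := by
  refine ⟨fun P hinv hcount => ⟨fun a ha => ?_, two_pow_le h2 hn P hinv hcount⟩,
    heldKarp n v F, relabelInvariant_heldKarp, output_heldKarp h2, size_heldKarp (by omega)⟩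
  exact catalan_le_nodes h2 P hinv hcount ha ((n - 2) / 2) (by omega) (by omega) (by omega)

end Pool.Agent.Results.MP_18d1ca_lc.SymmetricPrograms
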